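import Pool.Agent.H506.Sp5

/-!
# Tempered representations with Satake classes away from the roots of unity: finite order

Let `π` be an automorphic representation of `GSp_{2n}` over `ℚ`, unramified and tempered (with unitary
central character) outside the finite set `S`, with Satake classes `A_p` in the L-group
`GSpin_{2n+1}(ℂ)`, and let `ρ` be a finite-dimensional representation of the L-group. The theorem says that
one of the following statements holds:

* one of the functions `L_S(s, π, Λ^{i₁}ρ ⊗ ⋯ ⊗ Λ^{i_k}ρ ⊗ (Λ^{j₁}ρ ⊗ ⋯ ⊗ Λ^{j_l}ρ)^∨)` has no meromorphic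
  continuation to a neighbourhood of the real half-line `s ≥ 0`, so that the answer to Q1 is negative;
* there is an `N ≥ 1` such that `ρ(A_p)^N = 1` for all but finitely many primes `p`;
* for every subset `K` of the circle such that no root of unity is an accumulation point of `K` there is a
  `c > 0` such that for arbitrarily large `x` at least `x^c` primes `p ≤ x` are such that `ρ(A_p)` has an
  eigenvalue outside `K`.

So Q1 implies the following rigidity: if the set of all eigenvalues of the classes `ρ(A_p)`, `p` outside a thin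
set of primes, does not accumulate at any root of unity (it may be infinite, even uncountable in
principle, and it may have any number of accumulation points of infinite order), then `ρ(A_p)` has bounded
finite order for all but finitely many `p`, as if the classes were the images of the Frobenius elements in
a representation of the Galois group with finite image. In particular (`K` finite) this is so if the
classes `ρ(A_p)` are in a finite set for all `p` outside a thin set; for the representations whose
archimedean component is of Galois type this is a conjecture (for Maass forms of eigenvalue `1/4`, for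
instance). Conversely, a tempered `π` whose eigenvalues keep away from the roots of unity, except for
exceptional ones which are roots of unity themselves, and which is not of finite order at almost all
primes, would be a counterexample to Q1. Nothing is assumed about poles, functional equations or growth, and
automorphy is not used.

The dual torus is `(ℂˣ)^{n+1}`, a weight is a vector `k ∈ ℤ^{n+1}`, with the character `b^k = ∏ b_i^{k_i}`; a
representation is given by the multiset of its weights, and `A_p` by a point of the compact torus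
`U(1)^{n+1}`, since `π_p` is tempered.

Proof. We may take `K` closed; let `U` be the complement. If a number `n` has a prime power factor which is
large with respect to `U`, then every primitive `n`-th root of unity has a conjugate in `U`; so there is an `N`
such that each root of unity whose conjugates are all in `K` is an `N`-th root of unity. Let
`D(s) = ∑_{p, r} |tr ρ(A_p^{Nr}) - d|² p^{-rs} / r`, the logarithm of a product of the L-functions and of their
inverses, let `W` be the thin set and `E` the set of the primes outside `W` with an eigenvalue which is not an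
`N`-th root of unity. The `N`-th roots of unity are isolated points of `K`, so the coefficients
of `D` at the primes of `E` are bounded from below. Suppose that `D` does not converge for all `s > 0`. At the
abscissa of convergence `h > 0` the function `exp D` has a pole, of order `M ≥ 1`, the series
`∑_{p, r} |tr ρ(A_p^{Nr}) - d|² (∑_j α_j^{rk}) p^{-rs} / r` (`α_j` the eigenvalues of `ρ(A_p)`) are
`m_k log (1 / (s - h)) + O(1)` with integers `m_k`, and by the theorem of Helson and Cohen the weighted
eigenvalues are equidistributed with respect to a finite sum of measures `P_i · (Haar measure of T_i)` with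
closed subgroups `T_i` of the circle and trigonometric polynomials `P_i` with integral coefficients. The
terms with `r ≥ 2` and those of the primes in `W` are bounded, so the measure is concentrated on `K`. So the
`T_i` (with `P_i ≠ 0`) are finite, and with a root of unity all its conjugates are in the support, since the
coefficients of `P_i` are integers. By the choice of `N` the measure is concentrated on the `N`-th roots of
unity, but its part away from them has a positive mass, since `M ≥ 1` and the differences `|α_j^N - 1|` which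
are not zero are bounded from below, a contradiction. So `D` converges for all `s > 0`, it is
`M log (1 / s) + O(1)` near `s = 0`, each prime with `ρ(A_p)^N ≠ 1` contributes at least
`log (1 / s) + O(1)`, and there are at most `M` such primes.
-/

set_option autoImplicit false

namespace Pool.Agent.Results.MP_eea520_nt.RootsOfUnity

open Filter Topology

/-- The value `b^k = ∏ b_i^{k_i}` of the character `k` of the compact dual torus of `GSp_{2n}` at `b`. -/
noncomputable def chr {n : ℕ} (k : Fin (n + 1) → ℤ) (b : Fin (n + 1) → Circle) : Circle :=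
  ∏ i, b i ^ k i

/-- A representation of the dual group, given by the multiset of its weights. -/
abbrev Rep (n : ℕ) : Type := Multiset (Fin (n + 1) → ℤ)

/-- The dual representation. -/
def dual {n : ℕ} (ρ : Rep n) : Rep n := ρ.map fun k => -k

/-- The tensor product. -/
def tensor {n : ℕ} (ρ σ : Rep n) : Rep n := (ρ ×ˢ σ).map fun x => x.1 + x.2

/-- The exterior power `Λ^i ρ`. -/
def ext {n : ℕ} (ρ : Rep n) (i : ℕ) : Rep n := (ρ.powersetCard i).map Multiset.sum

/-- The tensor product `Λ^{i₁}ρ ⊗ ⋯ ⊗ Λ^{i_k}ρ` for `I = [i₁, …, i_k]`. -/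
def exts {n : ℕ} (ρ : Rep n) (I : List ℕ) : Rep n := (I.map (ext ρ)).foldr tensor {0}

/-- The Euler product `L_S(s, π, ρ) = ∏_{p ∉ S} det (1 - ρ(A_p) p^{-s})⁻¹`. -/
noncomputable def LFunction {n : ℕ} (S : Finset ℕ) (A : ℕ → Fin (n + 1) → Circle) (ρ : Rep n) (s : ℂ) :
    ℂ :=
  ∏' p : {p : Nat.Primes // (p : ℕ) ∉ S},
    (ρ.map fun k => 1 - (chr k (A p.1) : ℂ) * ((p.1 : ℕ) : ℂ) ^ (-s)).prod⁻¹

/-- The function `L` has a meromorphic continuation along the real half-line `s ≥ 0`: there are `X < 0` and
a function which is meromorphic at all real `s > X` and is equal to `L` in a half-plane `Re s > s₀`. -/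
def ContinuesToZero (L : ℂ → ℂ) : Prop :=
  ∃ X : ℝ, X < 0 ∧ ∃ F : ℂ → ℂ, (∀ x : ℝ, X < x → MeromorphicAt F (x : ℂ)) ∧
    ∃ s₀ : ℝ, ∀ s : ℂ, s₀ < s.re → F s = L s

/-- The eigenvalues of `ρ(b)`, with multiplicities. -/
noncomputable def eigenvalues {n : ℕ} (ρ : Rep n) (b : Fin (n + 1) → Circle) : Multiset Circle :=
  ρ.map fun k => chr k b

section tools

open AddMonoidAlgebra (single)

variable {n : ℕ}

theorem chr_eq (k : Fin (n + 1) → ℤ) (b : Fin (n + 1) → Circle) :
    chr k b = Pool.Agent.H506.TR.mon k b := rfl

/-- the character of a representation -/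
noncomputable def ch (ρ : Rep n) : AddMonoidAlgebra ℤ (Fin (n + 1) → ℤ) :=
  (ρ.map fun k => single k (1 : ℤ)).sum

theorem exists_fin {α : Type} (ρ : Multiset α) : ∃ (d : ℕ) (f : Fin d → α),
    ρ = Finset.univ.val.map f := by
  induction ρ using Quotient.inductionOn with
  | h l =>
    refine ⟨l.length, l.get, ?_⟩
    rw [Fin.univ_val_map, List.ofFn_get]
    rfl

theorem ch_tensor (ρ σ : Rep n) : ch (tensor ρ σ) = ch ρ * ch σ := by
  unfold ch tensor
  rw [Multiset.map_map]
  have h1 : ((fun k => single k (1 : ℤ)) ∘ fun x : (Fin (n + 1) → ℤ) × (Fin (n + 1) → ℤ) =>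
      x.1 + x.2) = fun x => single x.1 (1 : ℤ) * single x.2 (1 : ℤ) := by
    funext x
    rw [AddMonoidAlgebra.single_mul_single, one_mul]
    rfl
  rw [h1]
  induction ρ using Multiset.induction_on with
  | empty => simp
  | cons a s ih =>
    rw [Multiset.cons_product, Multiset.map_add, Multiset.sum_add, ih, Multiset.map_map,
      Multiset.map_cons, Multiset.sum_cons, add_mul]
    congr 1
    rw [← Multiset.sum_map_mul_left]
    rfl

theorem ch_ext (ρ : Rep n) (i : ℕ) :
    ch (ext ρ i) = (ρ.map fun k => single k (1 : ℤ)).esymm i := by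
  unfold ch ext Multiset.esymm
  rw [Multiset.powersetCard_map, Multiset.map_map, Multiset.map_map]
  congr 1
  refine Multiset.map_congr rfl fun T hT => ?_
  clear hT
  simp only [Function.comp_apply]
  induction T using Multiset.induction_on with
  | empty => simp [AddMonoidAlgebra.one_def]
  | cons a s ih =>
    rw [Multiset.sum_cons, Multiset.map_cons, Multiset.prod_cons, ← ih,
      AddMonoidAlgebra.single_mul_single, one_mul]

theorem ch_exts (ρ : Rep n) (I : List ℕ) :
    ch (exts ρ I) = (I.map fun i => (ρ.map fun k => single k (1 : ℤ)).esymm i).prod := by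
  unfold exts
  induction I with
  | nil => simp [ch, AddMonoidAlgebra.one_def]
  | cons i I ih =>
    rw [List.map_cons, List.foldr_cons, ch_tensor, ih, ch_ext, List.map_cons, List.prod_cons]

theorem dual_ext (ρ : Rep n) (i : ℕ) : dual (ext ρ i) = ext (dual ρ) i := by
  unfold dual ext
  rw [Multiset.powersetCard_map, Multiset.map_map, Multiset.map_map]
  refine Multiset.map_congr rfl fun T _ => ?_
  simp only [Function.comp_apply]
  rw [Multiset.sum_map_neg']

theorem dual_tensor (ρ σ : Rep n) : dual (tensor ρ σ) = tensor (dual ρ) (dual σ) := by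
  unfold dual tensor
  rw [Multiset.map_map]
  induction ρ using Multiset.induction_on with
  | empty => simp
  | cons a s ih =>
    rw [Multiset.cons_product, Multiset.map_add, ih, Multiset.map_cons, Multiset.cons_product,
      Multiset.map_add, Multiset.map_map, Multiset.map_map, Multiset.map_map]
    congr 1
    refine Multiset.map_congr rfl fun k _ => ?_
    simp only [Function.comp_apply]
    rw [neg_add]

theorem dual_exts (ρ : Rep n) (I : List ℕ) : dual (exts ρ I) = exts (dual ρ) I := by
  unfold exts
  induction I with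
  | nil => simp [dual]
  | cons i I ih =>
    rw [List.map_cons, List.foldr_cons, dual_tensor, ih, dual_ext, List.map_cons, List.foldr_cons]

end tools

/-- **Eigenvalues which do not accumulate at roots of unity.** -/
theorem result {n : ℕ} (ρ : Rep n) (S : Finset ℕ) (A : ℕ → Fin (n + 1) → Circle) :
    (∃ I J : List ℕ, ¬ ContinuesToZero (LFunction S A (tensor (exts ρ I) (dual (exts ρ J))))) ∨
    (∃ N : ℕ, 1 ≤ N ∧ {p : ℕ | p.Prime ∧ p ∉ S ∧ ∃ w ∈ eigenvalues ρ (A p), w ^ N ≠ 1}.Finite) ∨
    ∀ K : Set Circle, (∀ (z : Circle) (m : ℕ), 1 ≤ m → z ^ m = 1 → ¬ AccPt z (𝓟 K)) →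
      ∃ c : ℝ, 0 < c ∧ ∃ᶠ x : ℝ in atTop, x ^ c ≤ ({p : ℕ | p.Prime ∧ p ∉ S ∧
        (∃ w ∈ eigenvalues ρ (A p), w ∉ K) ∧ (p : ℝ) ≤ x}.ncard : ℝ) := by
  classical
  by_cases hL : ∃ I J : List ℕ,
      ¬ ContinuesToZero (LFunction S A (tensor (exts ρ I) (dual (exts ρ J))))
  · exact Or.inl hL
  right
  by_cases hC : ∀ K : Set Circle, (∀ (z : Circle) (m : ℕ), 1 ≤ m → z ^ m = 1 → ¬ AccPt z (𝓟 K)) →
      ∃ c : ℝ, 0 < c ∧ ∃ᶠ x : ℝ in atTop, x ^ c ≤ ({p : ℕ | p.Prime ∧ p ∉ S ∧
        (∃ w ∈ eigenvalues ρ (A p), w ∉ K) ∧ (p : ℝ) ≤ x}.ncard : ℝ)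
  · exact Or.inr hC
  left
  push Not at hL hC
  obtain ⟨K, hK, hCx⟩ := hC
  set V : Type := {p : Nat.Primes // (p : ℕ) ∉ S} with hV
  set q : V → ℝ := fun v => ((v.1 : ℕ) : ℝ) with hq
  have hq2 : ∀ v, 2 ≤ q v := fun v => by
    have h2 : ((2 : ℕ) : ℝ) ≤ ((v.1 : ℕ) : ℝ) := Nat.cast_le.mpr v.1.2.two_le
    rw [Nat.cast_ofNat] at h2
    exact h2
  have hsum : ∀ s : ℝ, 1 < s → Summable fun v => q v ^ (-s) := by
    intro s hs
    have h1 : Summable fun p : Nat.Primes => ((p : ℕ) : ℝ) ^ (-s) :=
      Nat.Primes.summable_rpow.mpr (by linarith)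
    exact h1.comp_injective Subtype.val_injective
  have hinj : Function.Injective fun v : V => (v.1 : ℕ) := fun v w h =>
    Subtype.ext (Subtype.ext h)
  have hqinj : Function.Injective q := fun v w h => hinj (Nat.cast_injective h)
  set c : V → (Fin (n + 1) → ℤ) → Circle := fun v k => chr k (A v.1) with hc
  have hc1 : ∀ v k, ‖(c v k : ℂ)‖ = 1 := fun v k => Circle.norm_coe _
  have hc0 : ∀ v, c v 0 = 1 := fun v => Pool.Agent.H506.TR.mon_zero _
  have hcadd : ∀ v k l, c v (k + l) = c v k * c v l := fun v k l => Pool.Agent.H506.TR.mon_add _ _ _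
  -- continuation for characters
  have hgood : ∀ σ : Rep n, ContinuesToZero (LFunction S A σ) →
      Pool.Agent.H506.SR.Good q (fun v k => (c v k : ℂ)) (ch σ) := by
    rintro σ ⟨X, hX, F, hF, s₀, hs₀⟩
    refine ⟨X, hX, F, hF, max s₀ 1, fun s hs => ?_⟩
    have e0 : 1 < s.re := lt_of_le_of_lt (le_max_right _ _) hs
    rw [hs₀ s (lt_of_le_of_lt (le_max_left _ _) hs)]
    obtain ⟨e, g, rfl⟩ := exists_fin σ
    obtain ⟨-, h2⟩ := Pool.Agent.H506.SR.euler hq2 hsum (γ := fun v j => (c v (g j) : ℂ))
      (fun v j => hc1 v _) e0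
    have h3 : LFunction S A (Finset.univ.val.map g) s =
        ∏' v, (∏ x, (1 - (c v (g x) : ℂ) * (q v : ℂ) ^ (-s)))⁻¹ := by
      unfold LFunction
      refine tprod_congr fun v => ?_
      rw [Multiset.map_map]
      rfl
    rw [h3, h2]
    congr 1
    refine tsum_congr fun v => ?_
    unfold ch
    rw [Multiset.map_map]
    have h4 : (Multiset.map ((fun k => AddMonoidAlgebra.single k (1 : ℤ)) ∘ g) Finset.univ.val).sum =
        ∑ x, AddMonoidAlgebra.single (g x) (1 : ℤ) := rfl
    rw [h4, map_sum]
    refine Finset.sum_congr rfl fun x _ => ?_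
    rw [Pool.Agent.H506.SR.lv_single]
    push_cast
    rw [one_mul]
  obtain ⟨d, f, hf⟩ := exists_fin ρ
  set W : Set V := {v | ∃ w ∈ eigenvalues ρ (A v.1), w ∉ K} with hW
  have hWconv := Pool.Agent.H506.SR.conv_of_count hq2 hsum hqinj (W := W) (by
    intro e he hx
    obtain ⟨x, hx1, hx2⟩ := (hx.and_eventually (hCx e he)).exists
    refine absurd (hx1.trans ?_) (not_le.mpr hx2)
    have h1 : {v : V | v ∈ W ∧ q v ≤ x}.ncard ≤
        {p : ℕ | p.Prime ∧ p ∉ S ∧ (∃ w ∈ eigenvalues ρ (A p), w ∉ K) ∧ (p : ℝ) ≤ x}.ncard := by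
      rw [← Set.ncard_image_of_injective _ hinj]
      refine Set.ncard_le_ncard ?_ ?_
      · rintro _ ⟨v, ⟨hv1, hv2⟩, rfl⟩
        exact ⟨v.1.2, v.2, hv1, hv2⟩
      · refine (Set.finite_Iic ⌊x⌋₊).subset fun p hp => ?_
        exact Nat.le_floor hp.2.2.2
    exact_mod_cast h1)
  have hmemf : ∀ v j, c v (f j) ∈ eigenvalues ρ (A v.1) := by
    intro v j
    rw [hf]
    unfold eigenvalues
    rw [Multiset.map_map]
    exact Multiset.mem_map_of_mem _ (Finset.mem_univ_val j)
  have hG : ∀ I J : List ℕ, Pool.Agent.H506.SR.Good q (fun v k => (c v k : ℂ))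
      (1 * ((I.map fun i => (Finset.univ.val.map fun j => AddMonoidAlgebra.single (f j) (1 : ℤ)).esymm i).prod *
       (J.map fun i => (Finset.univ.val.map fun j => AddMonoidAlgebra.single (-f j) (1 : ℤ)).esymm i).prod)) := by
    intro I J
    have h1 := hgood _ (hL I J)
    rw [ch_tensor, dual_exts, ch_exts, ch_exts, hf] at h1
    unfold dual at h1
    simp only [Multiset.map_map, Function.comp_def] at h1
    rw [one_mul]
    exact h1
  have hKcl : ∀ z : Circle, IsOfFinOrder z → ¬ AccPt z (𝓟 (closure K)) := by
    intro z hz hacc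
    obtain ⟨m, hm, hzm⟩ := isOfFinOrder_iff_pow_eq_one.mp hz
    refine hK z m hm hzm ?_
    rw [accPt_iff_nhds] at hacc ⊢
    intro U hU
    obtain ⟨U', hU'U, hU'o, hzU'⟩ := mem_nhds_iff.mp hU
    obtain ⟨y, ⟨hyU, hyK⟩, hyz⟩ := hacc U' (hU'o.mem_nhds hzU')
    have h1 : U' ∩ {z}ᶜ ∈ 𝓝 y :=
      (hU'o.inter isOpen_compl_singleton).mem_nhds ⟨hyU, hyz⟩
    obtain ⟨y', ⟨hy'U, hy'z⟩, hy'K⟩ := mem_closure_iff_nhds.mp hyK _ h1
    exact ⟨y', ⟨hU'U hy'U, hy'K⟩, hy'z⟩
  obtain ⟨N, hN, hfinN⟩ := Pool.Agent.H506.SP.near_roots hq2 hsum hc0 hcadd f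
    (K := closure K) isClosed_closure hKcl hWconv (fun v hv j => by
      refine subset_closure ?_
      by_contra hcon
      exact hv ⟨_, hmemf v j, hcon⟩) (fun ξ hξ => by
      have h1 := Pool.Agent.H506.SP.good_ring hc1 hq2 hsum 1 f hG hξ
      rwa [one_mul] at h1)
  refine ⟨N, hN, (hfinN.image fun v : V => (v.1 : ℕ)).subset ?_⟩
  rintro p ⟨hp, hpS, w, hw, hwN⟩
  refine ⟨⟨⟨p, hp⟩, hpS⟩, ?_, rfl⟩
  rw [hf] at hw
  unfold eigenvalues at hw
  rw [Multiset.map_map, Multiset.mem_map] at hw
  obtain ⟨j, -, rfl⟩ := hw
  exact ⟨j, hwN⟩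

end Pool.Agent.Results.MP_eea520_nt.RootsOfUnity
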