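import Pool.Agent.H506.Sp4

/-!
# Sato-Tate laws on sparse sets of exceptional primes

Let `π` be an automorphic representation of `GSp_{2n}` over `ℚ`, unramified and tempered (with unitary
central character) outside the finite set `S`, with Satake classes `A_p` in the L-group
`GSpin_{2n+1}(ℂ)`, and let `ρ₁`, `ρ₂`, `ρ` be representations of the L-group of the degrees `d₁`, `d₂`, `d`.
The theorem says that one of the following statements holds:

* one of the functions `L_S(s, π, ρ_a ⊗ ρ_b^∨ ⊗ Λ^{i₁}ρ ⊗ ⋯ ⊗ Λ^{i_k}ρ ⊗ (Λ^{j₁}ρ ⊗ ⋯ ⊗ Λ^{j_l}ρ)^∨)`,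
  `a, b ∈ {1, 2}`, has no meromorphic continuation to a neighbourhood of the real half-line `s ≥ 0`, so that
  the answer to Q1 is negative;
* `ρ₁(A_p)` and `ρ₂(A_p)` have the same eigenvalues, with multiplicities, for all but finitely many `p`;
* there are `0 < h ≤ 1`, an integer `M ≥ 1`, and finitely many closed subgroups `T_i` of `U(1)^d` and
  trigonometric polynomials `P_i` with integral coefficients, `P_i ≥ 0` on `T_i`, `∑_i ∫_{T_i} P_i = d! M`,
  such that for every continuous symmetric function `f` on `U(1)^d`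
  `∑_{p, r} |tr ρ₁(A_p^r) - tr ρ₂(A_p^r)|² f(ρ(A_p^r)) p^{-rs} / r ∼ (1 / d!) ∑_i ∫_{T_i} f P_i · log (1 / (s - h))`
  for `s → h` from the right (`p` over the primes outside `S`, `r` over the integers `≥ 1`, normalized Haar
  measures, `f` evaluated at the eigenvalues of `ρ(A_p^r)`).

Only the exceptional primes, those for which the eigenvalues of `ρ₁(A_p)` and `ρ₂(A_p)` differ, contribute
to the sum, and `h` may be smaller than `1`: then the exceptional primes are a sparse set, of Dirichlet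
density zero if all the differences are bounded from below. So Q1 implies that infinite exceptional sets,
however sparse, have an exact exponent `h > 0` and obey Sato-Tate laws at their own scale, laws
which have the shape of the Weyl integration formula for a compact Lie group. Nothing is assumed about the orders of
poles and zeros, about functional equations or growth, and automorphy is not used. For `h = 1`,
`ρ₁ = 1`, `ρ₂ = 0`, this is the existence of Sato-Tate laws in the sense of Dirichlet density.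

The dual torus is `(ℂˣ)^{n+1}`, a weight is a vector `k ∈ ℤ^{n+1}`, with the character `b^k = ∏ b_i^{k_i}`; a
representation is given by the family of its weights, and `A_p` by a point of the compact torus
`U(1)^{n+1}`, since `π_p` is tempered.

Proof. Let `h` be the abscissa of convergence of the series for `f = 1`, which has coefficients `≥ 0`. If it
converges for all `s > 0`, then it is `M log (1/s) + O(1)` near `0`, every exceptional prime contributes at
least `log (1/s) + O(1)`, and there are at most `M` of them. So let `h > 0`; by Landau's lemma the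
exponential of the series, a meromorphic function, has a pole of order `M ≥ 1` at `h`. For each `χ` in the ring
generated by the exterior powers of `ρ` and of its dual the series with `f = χ` converges for `s > h`; it is
a logarithm of the meromorphic function `∏ L_S(s, π, ρ_a ⊗ ρ_b^∨ ⊗ χ)^{±1}` for `s > 1`, and by the identity
theorem along the real axis for `s > h`. So it is `m log (1 / (s - h)) + O(1)` with an integer `m = m(χ)`. For
the symmetrized monomials `χ = ∑_{w ∈ S_d} α^{w k}`, `k ∈ ℤ^d`, these integers form a positive definite function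
on `ℤ^d`. By the theorem of Helson and Cohen (proved in `Pool.Agent.H506.Cohen`, `Cohen2`, `Cohen3`) it is a
finite sum of integer valued positive definite functions each of which is invariant under a subgroup and
supported on finitely many cosets of it; this is the assertion about the `T_i` and the `P_i`.
-/

set_option autoImplicit false

namespace Pool.Agent.Results.MP_eea520_nt.SparseLaws

open Filter Topology MeasureTheory

/-- The value `b^k = ∏ b_i^{k_i}` of the character `k` of the compact torus `U(1)^m` at `b`. -/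
noncomputable def chr {m : ℕ} (k : Fin m → ℤ) (b : Fin m → Circle) : Circle := ∏ i, b i ^ k i

/-- A representation of the dual group, given by the multiset of its weights. -/
abbrev Rep (n : ℕ) : Type := Multiset (Fin (n + 1) → ℤ)

/-- The dual representation. -/
def dual {n : ℕ} (ρ : Rep n) : Rep n := ρ.map fun k => -k

/-- The tensor product. -/
def tensor {n : ℕ} (ρ σ : Rep n) : Rep n := (ρ ×ˢ σ).map fun x => x.1 + x.2

/-- The exterior power `Λ^i ρ`. -/
def ext {n : ℕ} (ρ : Rep n) (i : ℕ) : Rep n := (ρ.powersetCard i).map Multiset.sum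

/-- The tensor product `Λ^{i₁}ρ ⊗ ⋯ ⊗ Λ^{i_k}ρ` for `I = [i₁, …, i_k]`. -/
def exts {n : ℕ} (ρ : Rep n) (I : List ℕ) : Rep n := (I.map (ext ρ)).foldr tensor {0}

/-- The Euler product `L_S(s, π, ρ) = ∏_{p ∉ S} det (1 - ρ(A_p) p^{-s})⁻¹`. -/
noncomputable def LFunction {n : ℕ} (S : Finset ℕ) (A : ℕ → Fin (n + 1) → Circle) (ρ : Rep n) (s : ℂ) :
    ℂ :=
  ∏' p : {p : Nat.Primes // (p : ℕ) ∉ S},
    (ρ.map fun k => 1 - (chr k (A p.1) : ℂ) * ((p.1 : ℕ) : ℂ) ^ (-s)).prod⁻¹

/-- The function `L` has a meromorphic continuation along the real half-line `s ≥ 0`: there are `X < 0` and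
a function which is meromorphic at every real `x > X` and is equal to `L` in a half-plane. -/
def ContinuesToZero (L : ℂ → ℂ) : Prop :=
  ∃ X : ℝ, X < 0 ∧ ∃ F : ℂ → ℂ, (∀ x : ℝ, X < x → MeromorphicAt F (x : ℂ)) ∧
    ∃ s₀ : ℝ, ∀ s : ℂ, s₀ < s.re → F s = L s

/-- The closed subgroup `T_Γ = {x ∈ U(1)^d | x^γ = 1 for all γ ∈ Γ}` of `U(1)^d`, for a subgroup `Γ` of
`ℤ^d`. -/
def torus {d : ℕ} (Γ : AddSubgroup (Fin d → ℤ)) : Subgroup (Fin d → Circle) where
  carrier := {x | ∀ γ ∈ Γ, chr γ x = 1}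
  mul_mem' := (Pool.Agent.H506.TR.ann Γ).mul_mem'
  one_mem' := (Pool.Agent.H506.TR.ann Γ).one_mem'
  inv_mem' := (Pool.Agent.H506.TR.ann Γ).inv_mem'

/-- `T_Γ` is compact. -/
instance torus_compact {d : ℕ} (Γ : AddSubgroup (Fin d → ℤ)) : CompactSpace (torus Γ) :=
  Pool.Agent.H506.TR.ann_compact Γ

/-- The integral over `T_Γ` with respect to the Haar measure of total mass `1`. -/
noncomputable def haarIntegral {d : ℕ} (Γ : AddSubgroup (Fin d → ℤ)) (f : (Fin d → Circle) → ℂ) : ℂ :=
  letI : MeasurableSpace (torus Γ) := borel (torus Γ)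
  haveI : BorelSpace (torus Γ) := ⟨rfl⟩
  ∫ x : torus Γ, f x ∂(Measure.haarMeasure (⊤ : TopologicalSpace.PositiveCompacts (torus Γ)))

/-- The trigonometric polynomial `P(x) = ∑_k P_k x^k` on `U(1)^d` with the integral coefficients `P_k`. -/
noncomputable def poly {d : ℕ} (P : (Fin d → ℤ) →₀ ℤ) (x : Fin d → Circle) : ℂ :=
  P.sum fun k a => (a : ℂ) * chr k x

/-- The eigenvalues of `ρ(b)` for the representation `ρ` with the weights `ρ_1, …, ρ_d`. -/
noncomputable def eigen {n d : ℕ} (ρ : Fin d → Fin (n + 1) → ℤ) (b : Fin (n + 1) → Circle) :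
    Fin d → Circle :=
  fun j => chr (ρ j) b

/-- The trace of `ρ(b)`. -/
noncomputable def tr {n d : ℕ} (ρ : Fin d → Fin (n + 1) → ℤ) (b : Fin (n + 1) → Circle) : ℂ :=
  ∑ j, (eigen ρ b j : ℂ)

/-- The representation with the weights `ρ_1, …, ρ_d`. -/
def rep {n d : ℕ} (ρ : Fin d → Fin (n + 1) → ℤ) : Rep n := Finset.univ.val.map ρ

/-- The term `|tr ρ₁(A_p^r) - tr ρ₂(A_p^r)|² g(A_p^r) p^{-rs} / r`, for `r = k + 1`. -/
noncomputable def term {n d₁ d₂ : ℕ} (A : ℕ → Fin (n + 1) → Circle) (ρ₁ : Fin d₁ → Fin (n + 1) → ℤ)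
    (ρ₂ : Fin d₂ → Fin (n + 1) → ℤ) (g : (Fin (n + 1) → Circle) → ℂ) (s : ℝ) (p k : ℕ) : ℂ :=
  ((‖tr ρ₁ (A p ^ (k + 1)) - tr ρ₂ (A p ^ (k + 1))‖ ^ 2 : ℝ) : ℂ) * g (A p ^ (k + 1)) *
    (((p : ℝ) ^ (-((k + 1) * s)) / (k + 1) : ℝ) : ℂ)

/-- The series `∑_{p ∉ S} ∑_{r ≥ 1} |tr ρ₁(A_p^r) - tr ρ₂(A_p^r)|² g(A_p^r) p^{-rs} / r`. -/
noncomputable def excess {n d₁ d₂ : ℕ} (S : Finset ℕ) (A : ℕ → Fin (n + 1) → Circle)
    (ρ₁ : Fin d₁ → Fin (n + 1) → ℤ) (ρ₂ : Fin d₂ → Fin (n + 1) → ℤ)
    (g : (Fin (n + 1) → Circle) → ℂ) (s : ℝ) : ℂ :=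
  ∑' x : {p : Nat.Primes // (p : ℕ) ∉ S} × ℕ, term A ρ₁ ρ₂ g s (x.1.1 : ℕ) x.2

section tools

open AddMonoidAlgebra (single)

variable {n : ℕ}

theorem chr_eq {m : ℕ} (k : Fin m → ℤ) (b : Fin m → Circle) :
    chr k b = Pool.Agent.H506.TR.mon k b := rfl

theorem chr_pow {m : ℕ} (k : Fin m → ℤ) (b : Fin m → Circle) (r : ℕ) :
    chr k (b ^ r) = chr k b ^ r := by
  unfold chr
  rw [← Finset.prod_pow]
  refine Finset.prod_congr rfl fun i _ => ?_
  rw [Pi.pow_apply, ← zpow_natCast, ← zpow_natCast, ← zpow_mul, ← zpow_mul, mul_comm]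

/-- the character of a representation -/
noncomputable def ch (ρ : Rep n) : AddMonoidAlgebra ℤ (Fin (n + 1) → ℤ) :=
  (ρ.map fun k => single k (1 : ℤ)).sum

theorem exists_fin {α : Type} (ρ : Multiset α) : ∃ (d : ℕ) (f : Fin d → α),
    ρ = Finset.univ.val.map f := by
  induction ρ using Quotient.inductionOn with
  | h l =>
    refine ⟨l.length, l.get, ?_⟩
    rw [Fin.univ_val_map, List.ofFn_get]
    rfl

theorem ch_tensor (ρ σ : Rep n) : ch (tensor ρ σ) = ch ρ * ch σ := by
  unfold ch tensor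
  rw [Multiset.map_map]
  have h1 : ((fun k => single k (1 : ℤ)) ∘ fun x : (Fin (n + 1) → ℤ) × (Fin (n + 1) → ℤ) =>
      x.1 + x.2) = fun x => single x.1 (1 : ℤ) * single x.2 (1 : ℤ) := by
    funext x
    rw [AddMonoidAlgebra.single_mul_single, one_mul]
    rfl
  rw [h1]
  induction ρ using Multiset.induction_on with
  | empty => simp
  | cons a s ih =>
    rw [Multiset.cons_product, Multiset.map_add, Multiset.sum_add, ih, Multiset.map_map,
      Multiset.map_cons, Multiset.sum_cons, add_mul]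
    congr 1
    rw [← Multiset.sum_map_mul_left]
    rfl

theorem ch_ext (ρ : Rep n) (i : ℕ) :
    ch (ext ρ i) = (ρ.map fun k => single k (1 : ℤ)).esymm i := by
  unfold ch ext Multiset.esymm
  rw [Multiset.powersetCard_map, Multiset.map_map, Multiset.map_map]
  congr 1
  refine Multiset.map_congr rfl fun T hT => ?_
  clear hT
  simp only [Function.comp_apply]
  induction T using Multiset.induction_on with
  | empty => simp [AddMonoidAlgebra.one_def]
  | cons a s ih =>
    rw [Multiset.sum_cons, Multiset.map_cons, Multiset.prod_cons, ← ih,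
      AddMonoidAlgebra.single_mul_single, one_mul]

theorem ch_exts (ρ : Rep n) (I : List ℕ) :
    ch (exts ρ I) = (I.map fun i => (ρ.map fun k => single k (1 : ℤ)).esymm i).prod := by
  unfold exts
  induction I with
  | nil => simp [ch, AddMonoidAlgebra.one_def]
  | cons i I ih =>
    rw [List.map_cons, List.foldr_cons, ch_tensor, ih, ch_ext, List.map_cons, List.prod_cons]

theorem dual_ext (ρ : Rep n) (i : ℕ) : dual (ext ρ i) = ext (dual ρ) i := by
  unfold dual ext
  rw [Multiset.powersetCard_map, Multiset.map_map, Multiset.map_map]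
  refine Multiset.map_congr rfl fun T _ => ?_
  simp only [Function.comp_apply]
  rw [Multiset.sum_map_neg']

theorem dual_tensor (ρ σ : Rep n) : dual (tensor ρ σ) = tensor (dual ρ) (dual σ) := by
  unfold dual tensor
  rw [Multiset.map_map]
  induction ρ using Multiset.induction_on with
  | empty => simp
  | cons a s ih =>
    rw [Multiset.cons_product, Multiset.map_add, ih, Multiset.map_cons, Multiset.cons_product,
      Multiset.map_add, Multiset.map_map, Multiset.map_map, Multiset.map_map]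
    congr 1
    refine Multiset.map_congr rfl fun k _ => ?_
    simp only [Function.comp_apply]
    rw [neg_add]

theorem dual_exts (ρ : Rep n) (I : List ℕ) : dual (exts ρ I) = exts (dual ρ) I := by
  unfold exts
  induction I with
  | nil => simp [dual]
  | cons i I ih =>
    rw [List.map_cons, List.foldr_cons, dual_tensor, ih, dual_ext, List.map_cons, List.foldr_cons]

theorem ch_rep {d : ℕ} (ρ : Fin d → Fin (n + 1) → ℤ) : ch (rep ρ) = ∑ j, single (ρ j) (1 : ℤ) := by
  unfold ch rep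
  rw [Multiset.map_map]
  rfl

theorem ch_dual_rep {d : ℕ} (ρ : Fin d → Fin (n + 1) → ℤ) :
    ch (dual (rep ρ)) = ∑ j, single (-ρ j) (1 : ℤ) := by
  unfold ch dual rep
  rw [Multiset.map_map, Multiset.map_map]
  rfl

theorem theta_eq {d₁ d₂ : ℕ} (ρ₁ : Fin d₁ → Fin (n + 1) → ℤ) (ρ₂ : Fin d₂ → Fin (n + 1) → ℤ) :
    Pool.Agent.H506.SP.theta (Pool.Agent.H506.SR.sgn d₁ d₂) (Sum.elim ρ₁ ρ₂) =
      ch (tensor (rep ρ₁) (dual (rep ρ₁))) + ch (tensor (rep ρ₂) (dual (rep ρ₂))) -
      ch (tensor (rep ρ₁) (dual (rep ρ₂))) - ch (tensor (rep ρ₂) (dual (rep ρ₁))) := by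
  have h1 : Pool.Agent.H506.SP.theta (Pool.Agent.H506.SR.sgn d₁ d₂) (Sum.elim ρ₁ ρ₂) =
      (∑ x, single (Sum.elim ρ₁ ρ₂ x) (Pool.Agent.H506.SR.sgn d₁ d₂ x)) *
      (∑ x, single (-Sum.elim ρ₁ ρ₂ x) (Pool.Agent.H506.SR.sgn d₁ d₂ x)) := by
    unfold Pool.Agent.H506.SP.theta
    rw [Finset.sum_mul_sum, Fintype.sum_prod_type]
    refine Finset.sum_congr rfl fun x _ => Finset.sum_congr rfl fun y _ => ?_
    rw [AddMonoidAlgebra.single_mul_single, sub_eq_add_neg]
  rw [h1]
  simp only [ch_tensor, ch_rep, ch_dual_rep, Fintype.sum_sum_type, Sum.elim_inl, Sum.elim_inr,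
    Pool.Agent.H506.SR.sgn]
  have h2 : ∀ k : Fin (n + 1) → ℤ, (single k (-1 : ℤ) : AddMonoidAlgebra ℤ (Fin (n + 1) → ℤ)) =
      -single k (1 : ℤ) := fun k => AddMonoidAlgebra.single_neg _ _
  simp only [h2, Finset.sum_neg_distrib]
  ring

end tools

/-- **Sato-Tate laws on sparse sets of exceptional primes.** -/
theorem result {n d₁ d₂ d : ℕ} (ρ₁ : Fin d₁ → Fin (n + 1) → ℤ) (ρ₂ : Fin d₂ → Fin (n + 1) → ℤ)
    (ρ : Fin d → Fin (n + 1) → ℤ) (S : Finset ℕ) (A : ℕ → Fin (n + 1) → Circle) :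
    (∃ σ τ : Rep n, (σ = rep ρ₁ ∨ σ = rep ρ₂) ∧ (τ = rep ρ₁ ∨ τ = rep ρ₂) ∧ ∃ I J : List ℕ,
      ¬ ContinuesToZero (LFunction S A
        (tensor (tensor σ (dual τ)) (tensor (exts (rep ρ) I) (dual (exts (rep ρ) J)))))) ∨
    {p : Nat.Primes | (p : ℕ) ∉ S ∧ Finset.univ.val.map (eigen ρ₁ (A p)) ≠
      Finset.univ.val.map (eigen ρ₂ (A p))}.Finite ∨
    ∃ h : ℝ, 0 < h ∧ h ≤ 1 ∧
      (∀ s : ℝ, h < s → Summable fun x : {p : Nat.Primes // (p : ℕ) ∉ S} × ℕ =>
        term A ρ₁ ρ₂ (fun _ => 1) s (x.1.1 : ℕ) x.2) ∧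
      ∃ M : ℕ, 1 ≤ M ∧ ∃ L : List (AddSubgroup (Fin d → ℤ) × ((Fin d → ℤ) →₀ ℤ)),
        (∀ D ∈ L, ∀ x ∈ torus D.1, (poly D.2 x).im = 0 ∧ 0 ≤ (poly D.2 x).re) ∧
        (L.map fun D => haarIntegral D.1 fun x => poly D.2 x).sum = (d.factorial : ℂ) * M ∧
        ∀ f : (Fin d → Circle) → ℂ, Continuous f → (∀ (w : Equiv.Perm (Fin d)) x, f (x ∘ w) = f x) →
          Tendsto (fun s : ℝ => excess S A ρ₁ ρ₂ (fun b => f (eigen ρ b)) s /
            (Real.log (1 / (s - h)) : ℂ)) (𝓝[>] h)
            (𝓝 ((L.map fun D => haarIntegral D.1 fun x => f x * poly D.2 x).sum /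
              (d.factorial : ℂ))) := by
  classical
  by_cases hL : ∃ σ τ : Rep n, (σ = rep ρ₁ ∨ σ = rep ρ₂) ∧ (τ = rep ρ₁ ∨ τ = rep ρ₂) ∧
      ∃ I J : List ℕ, ¬ ContinuesToZero (LFunction S A
        (tensor (tensor σ (dual τ)) (tensor (exts (rep ρ) I) (dual (exts (rep ρ) J)))))
  · exact Or.inl hL
  right
  push Not at hL
  set V : Type := {p : Nat.Primes // (p : ℕ) ∉ S} with hV
  set q : V → ℝ := fun v => ((v.1 : ℕ) : ℝ) with hq
  have hq2 : ∀ v, 2 ≤ q v := fun v => by
    have h2 : ((2 : ℕ) : ℝ) ≤ ((v.1 : ℕ) : ℝ) := Nat.cast_le.mpr v.1.2.two_le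
    rw [Nat.cast_ofNat] at h2
    exact h2
  have hsum : ∀ s : ℝ, 1 < s → Summable fun v => q v ^ (-s) := by
    intro s hs
    have h1 : Summable fun p : Nat.Primes => ((p : ℕ) : ℝ) ^ (-s) :=
      Nat.Primes.summable_rpow.mpr (by linarith)
    exact h1.comp_injective Subtype.val_injective
  set c : V → (Fin (n + 1) → ℤ) → Circle := fun v k => chr k (A v.1) with hc
  have hc1 : ∀ v k, ‖(c v k : ℂ)‖ = 1 := fun v k => Circle.norm_coe _
  have hc0 : ∀ v, c v 0 = 1 := fun v => Pool.Agent.H506.TR.mon_zero _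
  have hcadd : ∀ v k l, c v (k + l) = c v k * c v l := fun v k l => Pool.Agent.H506.TR.mon_add _ _ _
  -- continuation for characters
  have hgood : ∀ σ : Rep n, ContinuesToZero (LFunction S A σ) →
      Pool.Agent.H506.SR.Good q (fun v k => (c v k : ℂ)) (ch σ) := by
    rintro σ ⟨X, hX, F, hF, s₀, hs₀⟩
    refine ⟨X, hX, F, hF, max s₀ 1, fun s hs => ?_⟩
    have hs1 : 1 < s.re := lt_of_le_of_lt (le_max_right _ _) hs
    rw [hs₀ s (lt_of_le_of_lt (le_max_left _ _) hs)]
    obtain ⟨e, g, rfl⟩ := exists_fin σ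
    obtain ⟨-, h2⟩ := Pool.Agent.H506.SR.euler hq2 hsum (γ := fun v j => (c v (g j) : ℂ))
      (fun v j => hc1 v _) hs1
    have h3 : LFunction S A (Finset.univ.val.map g) s =
        ∏' v, (∏ x, (1 - (c v (g x) : ℂ) * (q v : ℂ) ^ (-s)))⁻¹ := by
      unfold LFunction
      refine tprod_congr fun v => ?_
      rw [Multiset.map_map]
      rfl
    rw [h3, h2]
    congr 1
    refine tsum_congr fun v => ?_
    unfold ch
    rw [Multiset.map_map]
    have h4 : (Multiset.map ((fun k => AddMonoidAlgebra.single k (1 : ℤ)) ∘ g) Finset.univ.val).sum =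
        ∑ x, AddMonoidAlgebra.single (g x) (1 : ℤ) := rfl
    rw [h4, map_sum]
    refine Finset.sum_congr rfl fun x _ => ?_
    rw [Pool.Agent.H506.SR.lv_single]
    push_cast
    rw [one_mul]
  have hG : ∀ I J : List ℕ, Pool.Agent.H506.SR.Good q (fun v k => (c v k : ℂ))
      (Pool.Agent.H506.SP.theta (Pool.Agent.H506.SR.sgn d₁ d₂) (Sum.elim ρ₁ ρ₂) *
      ((I.map fun i => (Finset.univ.val.map fun j => AddMonoidAlgebra.single (ρ j) (1 : ℤ)).esymm i).prod *
       (J.map fun i => (Finset.univ.val.map fun j => AddMonoidAlgebra.single (-ρ j) (1 : ℤ)).esymm i).prod)) := by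
    intro I J
    have e1 : ∀ σ τ : Rep n, (σ = rep ρ₁ ∨ σ = rep ρ₂) → (τ = rep ρ₁ ∨ τ = rep ρ₂) →
        Pool.Agent.H506.SR.Good q (fun v k => (c v k : ℂ)) (ch (tensor σ (dual τ)) *
          ((I.map fun i => (Finset.univ.val.map fun j => AddMonoidAlgebra.single (ρ j) (1 : ℤ)).esymm i).prod *
       (J.map fun i => (Finset.univ.val.map fun j => AddMonoidAlgebra.single (-ρ j) (1 : ℤ)).esymm i).prod)) := by
      intro σ τ hσ hτ
      have h1 := hgood _ (hL σ τ hσ hτ I J)
      rw [ch_tensor, ch_tensor (exts (rep ρ) I), dual_exts, ch_exts, ch_exts] at h1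
      unfold rep at h1
      have h5 : dual (Finset.univ.val.map ρ) = Finset.univ.val.map fun j => -ρ j := by
        unfold dual
        rw [Multiset.map_map]
        rfl
      rw [h5] at h1
      simp only [Multiset.map_map, Function.comp_def] at h1
      exact h1
    rw [theta_eq, sub_mul, sub_mul, add_mul]
    set GG := Pool.Agent.H506.SR.goodGroup hq2 hsum (c := fun v k => (c v k : ℂ)) hc1
    exact GG.sub_mem (GG.sub_mem (GG.add_mem (e1 _ _ (Or.inl rfl) (Or.inl rfl))
      (e1 _ _ (Or.inr rfl) (Or.inr rfl))) (e1 _ _ (Or.inl rfl) (Or.inr rfl)))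
      (e1 _ _ (Or.inr rfl) (Or.inl rfl))
  -- the power sums
  have hps : ∀ v r, Pool.Agent.H506.SR.ps (Pool.Agent.H506.SR.sgn d₁ d₂)
      (fun j => (c v (Sum.elim ρ₁ ρ₂ j) : ℂ)) (r + 1) =
      tr ρ₁ (A v.1 ^ (r + 1)) - tr ρ₂ (A v.1 ^ (r + 1)) := by
    intro v r
    unfold Pool.Agent.H506.SR.ps tr eigen Pool.Agent.H506.SR.sgn
    rw [Fintype.sum_sum_type, sub_eq_add_neg, ← Finset.sum_neg_distrib]
    simp only [Sum.elim_inl, Sum.elim_inr, Int.cast_one, one_mul, Int.cast_neg, neg_mul, chr_pow,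
      Circle.coe_pow, hc]
  rcases Pool.Agent.H506.SP.sparse_laws hq2 hsum hc0 hcadd (Pool.Agent.H506.SR.sgn d₁ d₂)
    (Sum.elim ρ₁ ρ₂) ρ hG with hfin | ⟨h, hh0, hh1, hconv, M, hM, L, hL1, hL2, hL3⟩
  · left
    have h1 : {p : Nat.Primes | (p : ℕ) ∉ S ∧ Finset.univ.val.map (eigen ρ₁ (A p)) ≠
        Finset.univ.val.map (eigen ρ₂ (A p))} ⊆ Subtype.val '' {v : V | ∃ r,
          Pool.Agent.H506.SR.asq (Pool.Agent.H506.SR.sgn d₁ d₂)
          (fun v j => (c v (Sum.elim ρ₁ ρ₂ j) : ℂ)) v r ≠ 0} := by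
      rintro p ⟨hpS, hp⟩
      refine ⟨⟨p, hpS⟩, ?_, rfl⟩
      by_contra hcon
      apply hp
      have hcon' : ∀ r, Pool.Agent.H506.SR.asq (Pool.Agent.H506.SR.sgn d₁ d₂)
          (fun v j => (c v (Sum.elim ρ₁ ρ₂ j) : ℂ)) ⟨p, hpS⟩ r = 0 := by
        intro r
        by_contra hne
        exact hcon ⟨r, hne⟩
      have h2 : ∀ r : ℕ, ∑ j, (eigen ρ₁ (A p) j : ℂ) ^ (r + 1) = ∑ j, (eigen ρ₂ (A p) j : ℂ) ^ (r + 1) := by
        intro r
        have h3 := hcon' r
        unfold Pool.Agent.H506.SR.asq at h3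
        rw [hps] at h3
        have h4 := pow_eq_zero_iff (two_ne_zero) |>.mp h3
        rw [norm_eq_zero, sub_eq_zero] at h4
        unfold tr eigen at h4
        simp only [chr_pow, Circle.coe_pow] at h4
        exact h4
      have h5 := Pool.Agent.H506.SR.multiset_eq (fun j => Circle.coe_ne_zero _)
        (fun j => Circle.coe_ne_zero _) h2
      have h6 : ∀ {e : ℕ} (g : Fin e → Circle), Multiset.map (fun j => (g j : ℂ)) Finset.univ.val =
          Multiset.map (fun x : Circle => (x : ℂ)) (Multiset.map g Finset.univ.val) := by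
        intro e g
        rw [Multiset.map_map]
        rfl
      rw [h6, h6] at h5
      exact Multiset.map_injective Circle.coe_injective h5
    exact (hfin.image _).subset h1
  · right
    have hterm : ∀ (g : (Fin (n + 1) → Circle) → ℂ) (s : ℝ) (x : V × ℕ),
        term A ρ₁ ρ₂ g s (x.1.1 : ℕ) x.2 = g (A x.1.1 ^ (x.2 + 1)) *
        ((Pool.Agent.H506.SP.Wt (Pool.Agent.H506.SV.cf (Pool.Agent.H506.SR.asq
          (Pool.Agent.H506.SR.sgn d₁ d₂) fun v j => (c v (Sum.elim ρ₁ ρ₂ j) : ℂ)) 1 Set.univ)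
          (Pool.Agent.H506.PS.len q) s x : ℝ) : ℂ) := by
      intro g s x
      have h0 : 0 < q x.1 := by linarith [hq2 x.1]
      unfold term Pool.Agent.H506.SP.Wt Pool.Agent.H506.SV.cf
      rw [if_pos (Set.mem_univ _), pow_one]
      unfold Pool.Agent.H506.SR.asq
      rw [hps]
      have h1 : (((x.1.1 : ℕ) : ℝ)) ^ (-(((x.2 : ℝ) + 1) * s)) =
          Real.exp (-(Pool.Agent.H506.PS.len q x * s)) := by
        change q x.1 ^ (-(((x.2 : ℝ) + 1) * s)) = _
        rw [Real.rpow_def_of_pos h0]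
        congr 1
        unfold Pool.Agent.H506.PS.len
        ring
      rw [h1]
      push_cast
      ring
    refine ⟨h, hh0, hh1, fun s hs => ?_, M, hM, L, fun D hD x hx => hL1 D hD x hx, ?_, ?_⟩
    · simp only [hterm, one_mul]
      exact Complex.ofRealCLM.summable (hconv s hs)
    · rw [← hL2]
      unfold Pool.Agent.H506.LW.integ
      congr 1
      refine List.map_congr_left fun D _ => ?_
      simp only [one_mul]
      rfl
    · intro f hf hsym
      have h1 := (hL3 f hf).div_const (d.factorial : ℂ)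
      have h2 : Pool.Agent.H506.LW.integ L f =
          (L.map fun D => haarIntegral D.1 fun x => f x * poly D.2 x).sum := rfl
      rw [h2] at h1
      refine h1.congr fun s => ?_
      unfold Pool.Agent.H506.SP.E
      rw [div_right_comm]
      unfold excess Pool.Agent.H506.SP.lo
      congr 1
      rw [div_eq_iff (by exact_mod_cast d.factorial_ne_zero), ← tsum_mul_right]
      refine tsum_congr fun x => ?_
      rw [hterm]
      have h3 : Pool.Agent.H506.SP.so (fun a j => Pool.Agent.H506.SP.pc c a (ρ j)) f x =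
          (d.factorial : ℂ) * f (eigen ρ (A x.1.1 ^ (x.2 + 1))) := by
        unfold Pool.Agent.H506.SP.so
        have h4 : ∀ w : Equiv.Perm (Fin d), f (fun j => Pool.Agent.H506.SP.pc c x (ρ (w j))) =
            f (eigen ρ (A x.1.1 ^ (x.2 + 1))) := by
          intro w
          have h5 := hsym w (eigen ρ (A x.1.1 ^ (x.2 + 1)))
          rw [← h5]
          congr 1
          funext j
          unfold Pool.Agent.H506.SP.pc eigen
          simp only [Function.comp_apply, chr_pow, hc]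
        simp only [h4, Finset.sum_const, Finset.card_univ, Fintype.card_perm, Fintype.card_fin,
          nsmul_eq_mul]
      rw [h3]
      ring

end Pool.Agent.Results.MP_eea520_nt.SparseLaws
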