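import Pool.Agent.H506.Relations

/-!
# Relations between the eigenvalues of Satake classes: no infinite sparse set of exceptions

Let `π` be an automorphic representation of `GSp_{2n}` over `ℚ`, unramified and tempered (with unitary
central character) outside the finite set `S`, with Satake classes `A_p` in the L-group
`GSpin_{2n+1}(ℂ)`, and let `ρ₁`, `ρ₂` be finite-dimensional representations of the L-group, of any
degrees. The theorem says that one of the following statements holds: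

* one of the four functions `L_S(s, π, ρ_a ⊗ ρ_b^∨)`, `a, b ∈ {1, 2}`, has no meromorphic continuation
  to a neighbourhood of the real half-line `s ≥ 0`, so that the answer to Q1 is negative;
* `ρ₁(A_p)` and `ρ₂(A_p)` have the same eigenvalues, with multiplicities, for all but finitely many `p`;
* there is a `c > 0` such that for all large `x` they have different eigenvalues for at least `x^c` primes
  `p ≤ x`.

So Q1 implies a strong multiplicity one theorem without automorphy of the functorial lifts: if the Euler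
factors of `L_S(s, π, ρ₁)` and `L_S(s, π, ρ₂)` are equal for all `p` outside an exceptional set with fewer
than `x^c` elements up to `x`, for every `c > 0` and suitable arbitrarily large `x`, then they are equal at
almost all primes. Conversely, `π`, `ρ₁`, `ρ₂` with an infinite exceptional set which is so sparse would be
a counterexample to Q1. Nothing is assumed about poles, functional equations or growth.

The dual torus is `(ℂˣ)^{n+1}`, a weight is a vector `k ∈ ℤ^{n+1}`, with the character `b^k = ∏ b_i^{k_i}`; a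
representation is given by the family of its weights, and `A_p` by a point of the torus, all coordinates
of which have absolute value one since `π_p` is tempered. The spin representation has the weights with
`k_0 = 1` and `k_i ∈ {0, 1}` for `i ≥ 1`.

Proof. The Dirichlet series `X(s) = ∑_{p, r} |tr ρ₁(A_p^r) - tr ρ₂(A_p^r)|² p^{-rs} / r` is the logarithm of
the quotient of the functions with `a = b` by those with `a ≠ b`; it has coefficients `≥ 0`, and only the
exceptional primes contribute. If it does not converge for some `s > 0`, then the quotient has a pole, of order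
`M ≥ 1`, at the abscissa of convergence, and a Tauberian argument gives terms in all windows
`[α X, β X]` on the scale of `log p`, so at least `x^c` exceptional primes. If it converges for all `s > 0`,
then it is `M log (1/s) + O(1)` near `s = 0`; but every exceptional prime contributes
`M_p log (1/s) + O(1)` with an integer `M_p`, which is positive, since otherwise, by Landau's lemma, the
numbers `|tr ρ₁(A_p^r) - tr ρ₂(A_p^r)|²` would tend to zero as `r → ∞`, and they would be zero by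
recurrence. So there are at most `M` exceptional primes.
-/

set_option autoImplicit false

namespace Pool.Agent.Results.MP_eea520_nt.SparseRelations

open Filter Topology

/-- The value `b^k = ∏ b_i^{k_i}` of the character `k` of the dual torus of `GSp_{2n}` at `b`. -/
noncomputable def chr {n : ℕ} (k : Fin (n + 1) → ℤ) (b : Fin (n + 1) → ℂ) : ℂ := ∏ i, b i ^ k i

/-- The weights of the dual representation. -/
def dual {n : ℕ} {ι : Type} (ρ : ι → Fin (n + 1) → ℤ) : ι → Fin (n + 1) → ℤ := fun j => -ρ j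

/-- The weights of the tensor product. -/
def tensor {n : ℕ} {ι ι' : Type} (ρ : ι → Fin (n + 1) → ℤ) (ρ' : ι' → Fin (n + 1) → ℤ) :
    ι × ι' → Fin (n + 1) → ℤ := fun x => ρ x.1 + ρ' x.2

/-- The Euler product `L_S(s, π, ρ) = ∏_{p ∉ S} det (1 - ρ(A_p) p^{-s})⁻¹`. -/
noncomputable def LFunction {n : ℕ} {ι : Type} [Fintype ι] (S : Finset ℕ) (A : ℕ → Fin (n + 1) → ℂ)
    (ρ : ι → Fin (n + 1) → ℤ) (s : ℂ) : ℂ :=
  ∏' p : {p : Nat.Primes // (p : ℕ) ∉ S}, (∏ j, (1 - chr (ρ j) (A p.1) * ((p.1 : ℕ) : ℂ) ^ (-s)))⁻¹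

/-- The function `L` has a meromorphic continuation along the real half-line `s ≥ 0`: there are `X < 0` and
a function which is meromorphic at all real `s > X` and is equal to `L` in a half-plane `Re s > s₀`. -/
def ContinuesToZero (L : ℂ → ℂ) : Prop :=
  ∃ X : ℝ, X < 0 ∧ ∃ F : ℂ → ℂ, (∀ x : ℝ, X < x → MeromorphicAt F (x : ℂ)) ∧
    ∃ s₀ : ℝ, ∀ s : ℂ, s₀ < s.re → F s = L s

/-- The eigenvalues of `ρ(b)`, with multiplicities. -/
noncomputable def eigenvalues {n d : ℕ} (ρ : Fin d → Fin (n + 1) → ℤ) (b : Fin (n + 1) → ℂ) :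
    Multiset ℂ := Multiset.map (fun j => chr (ρ j) b) Finset.univ.val

/-- The primes `p ∉ S` such that `ρ₁(A_p)` and `ρ₂(A_p)` do not have the same eigenvalues. -/
def exceptions {n d₁ d₂ : ℕ} (S : Finset ℕ) (A : ℕ → Fin (n + 1) → ℂ)
    (ρ₁ : Fin d₁ → Fin (n + 1) → ℤ) (ρ₂ : Fin d₂ → Fin (n + 1) → ℤ) : Set ℕ :=
  {p | p.Prime ∧ p ∉ S ∧ eigenvalues ρ₁ (A p) ≠ eigenvalues ρ₂ (A p)}

section tools

variable {n d : ℕ}

theorem norm_chr (k : Fin (n + 1) → ℤ) {b : Fin (n + 1) → ℂ} (hb : ∀ i, ‖b i‖ = 1) :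
    ‖chr k b‖ = 1 := by
  unfold chr
  rw [norm_prod]
  refine Finset.prod_eq_one fun i _ => ?_
  rw [norm_zpow, hb i, one_zpow]

theorem chr_sub {k k' : Fin (n + 1) → ℤ} {b : Fin (n + 1) → ℂ} (hb : ∀ i, ‖b i‖ = 1) :
    chr (k + -k') b = chr k b * (chr k' b)⁻¹ := by
  unfold chr
  rw [← Finset.prod_inv_distrib, ← Finset.prod_mul_distrib]
  refine Finset.prod_congr rfl fun i _ => ?_
  have h0 : b i ≠ 0 := by
    rw [← norm_ne_zero_iff, hb i]
    exact one_ne_zero
  rw [Pi.add_apply, Pi.neg_apply, zpow_add₀ h0, zpow_neg]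

end tools

/-- **Sparse relations.** -/
theorem result {n d₁ d₂ : ℕ} (ρ₁ : Fin d₁ → Fin (n + 1) → ℤ) (ρ₂ : Fin d₂ → Fin (n + 1) → ℤ)
    (S : Finset ℕ) (A : ℕ → Fin (n + 1) → ℂ)
    (hA : ∀ p : ℕ, p.Prime → p ∉ S → ∀ i, ‖A p i‖ = 1) :
    (¬ ContinuesToZero (LFunction S A (tensor ρ₁ (dual ρ₁))) ∨
      ¬ ContinuesToZero (LFunction S A (tensor ρ₁ (dual ρ₂))) ∨
      ¬ ContinuesToZero (LFunction S A (tensor ρ₂ (dual ρ₁))) ∨
      ¬ ContinuesToZero (LFunction S A (tensor ρ₂ (dual ρ₂)))) ∨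
    (exceptions S A ρ₁ ρ₂).Finite ∨
    ∃ c : ℝ, 0 < c ∧ ∀ᶠ x : ℝ in atTop,
      x ^ c ≤ ({p : ℕ | p ∈ exceptions S A ρ₁ ρ₂ ∧ (p : ℝ) ≤ x}.ncard : ℝ) := by
  classical
  by_cases hL : ¬ ContinuesToZero (LFunction S A (tensor ρ₁ (dual ρ₁))) ∨
      ¬ ContinuesToZero (LFunction S A (tensor ρ₁ (dual ρ₂))) ∨
      ¬ ContinuesToZero (LFunction S A (tensor ρ₂ (dual ρ₁))) ∨
      ¬ ContinuesToZero (LFunction S A (tensor ρ₂ (dual ρ₂)))
  · exact Or.inl hL
  right
  push Not at hL
  obtain ⟨⟨X₁, hX₁, F₁, hF₁, s₁, h₁⟩, ⟨X₂, hX₂, F₂, hF₂, s₂, h₂⟩, ⟨X₃, hX₃, F₃, hF₃, s₃, h₃⟩,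
    ⟨X₄, hX₄, F₄, hF₄, s₄, h₄⟩⟩ := hL
  set V : Type := {p : Nat.Primes // (p : ℕ) ∉ S} with hV
  set q : V → ℝ := fun v => ((v.1 : ℕ) : ℝ) with hq
  have hq2 : ∀ v, 2 ≤ q v := fun v => by
    have h2 : ((2 : ℕ) : ℝ) ≤ ((v.1 : ℕ) : ℝ) := Nat.cast_le.mpr v.1.2.two_le
    rw [Nat.cast_ofNat] at h2
    exact h2
  have hsum : ∀ s : ℝ, 1 < s → Summable fun v => q v ^ (-s) := by
    intro s hs
    have h1 : Summable fun p : Nat.Primes => ((p : ℕ) : ℝ) ^ (-s) :=
      Nat.Primes.summable_rpow.mpr (by linarith)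
    exact h1.comp_injective Subtype.val_injective
  have hb : ∀ v : V, ∀ i, ‖A v.1 i‖ = 1 := fun v => hA v.1 v.1.2 v.2
  set a : V → Fin d₁ → ℂ := fun v j => chr (ρ₁ j) (A v.1) with ha
  set b : V → Fin d₂ → ℂ := fun v j => chr (ρ₂ j) (A v.1) with hb'
  have ha1 : ∀ v j, ‖a v j‖ = 1 := fun v j => norm_chr _ (hb v)
  have hb1 : ∀ v j, ‖b v j‖ = 1 := fun v j => norm_chr _ (hb v)
  set m := Pool.Agent.H506.SR.sgn d₁ d₂ with hm
  set z : V → Fin d₁ ⊕ Fin d₂ → ℂ := fun v => Sum.elim (a v) (b v) with hz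
  have hz1 : ∀ v j, ‖z v j‖ = 1 := by
    rintro v (j | j)
    · exact ha1 v j
    · exact hb1 v j
  -- the continuation of the quotient
  set X : ℝ := max (max X₁ X₂) (max X₃ X₄) with hX
  have hX0 : X < 0 := max_lt (max_lt hX₁ hX₂) (max_lt hX₃ hX₄)
  have hXle : X₁ ≤ X ∧ X₂ ≤ X ∧ X₃ ≤ X ∧ X₄ ≤ X :=
    ⟨(le_max_left _ _).trans (le_max_left _ _), (le_max_right _ _).trans (le_max_left _ _),
      (le_max_left _ _).trans (le_max_right _ _), (le_max_right _ _).trans (le_max_right _ _)⟩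
  have hF : ∀ x : ℝ, X < x → MeromorphicAt (fun s => F₁ s * F₄ s * (F₂ s)⁻¹ * (F₃ s)⁻¹) (x : ℂ) := by
    intro x hx
    exact (((hF₁ x (by linarith [hXle.1])).mul (hF₄ x (by linarith [hXle.2.2.2]))).mul
      (hF₂ x (by linarith [hXle.2.1])).inv).mul (hF₃ x (by linarith [hXle.2.2.1])).inv
  have hFP : ∃ s₀ : ℝ, ∀ s : ℂ, s₀ < s.re → F₁ s * F₄ s * (F₂ s)⁻¹ * (F₃ s)⁻¹ =
      Complex.exp (Pool.Agent.H506.PS.P (Pool.Agent.H506.SV.cf (Pool.Agent.H506.SR.asq m z) 1
        Set.univ) (Pool.Agent.H506.PS.len q) s) := by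
    refine ⟨max 1 (max (max s₁ s₂) (max s₃ s₄)), fun s hs => ?_⟩
    have e0 : 1 < s.re := lt_of_le_of_lt (le_max_left _ _) hs
    have e' : max (max s₁ s₂) (max s₃ s₄) < s.re := lt_of_le_of_lt (le_max_right _ _) hs
    have e1 : s₁ < s.re := lt_of_le_of_lt ((le_max_left _ _).trans (le_max_left _ _)) e'
    have e2 : s₂ < s.re := lt_of_le_of_lt ((le_max_right _ _).trans (le_max_left _ _)) e'
    have e3 : s₃ < s.re := lt_of_le_of_lt ((le_max_left _ _).trans (le_max_right _ _)) e'
    have e4 : s₄ < s.re := lt_of_le_of_lt ((le_max_right _ _).trans (le_max_right _ _)) e'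
    rw [h₁ s e1, h₂ s e2, h₃ s e3, h₄ s e4, ← Pool.Agent.H506.SR.four hq2 hsum ha1 hb1 e0]
    unfold LFunction tensor dual
    congr 1
    · congr 1
      · congr 1
        · refine tprod_congr fun v => ?_
          simp only [chr_sub (hb v)]
          rfl
        · refine tprod_congr fun v => ?_
          simp only [chr_sub (hb v)]
          rfl
      · congr 1
        refine tprod_congr fun v => ?_
        simp only [chr_sub (hb v)]
        rfl
    · congr 1
      refine tprod_congr fun v => ?_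
      simp only [chr_sub (hb v)]
      rfl
  -- the exceptional primes
  have hps : ∀ v r, Pool.Agent.H506.SR.ps m (z v) r = ∑ j, a v j ^ r - ∑ j, b v j ^ r := by
    intro v r
    unfold Pool.Agent.H506.SR.ps
    rw [Fintype.sum_sum_type]
    simp only [hm, hz, Pool.Agent.H506.SR.sgn, Sum.elim_inl, Sum.elim_inr]
    push_cast
    simp only [one_mul, neg_mul, Finset.sum_neg_distrib]
    ring
  have hexc : ∀ v : V, (∃ r, Pool.Agent.H506.SR.asq m z v r ≠ 0) ↔
      eigenvalues ρ₁ (A v.1) ≠ eigenvalues ρ₂ (A v.1) := by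
    intro v
    rw [← not_iff_not]
    push Not
    constructor
    · intro h
      refine Pool.Agent.H506.SR.multiset_eq (fun j => ?_) (fun j => ?_) fun r => ?_
      · rw [← norm_ne_zero_iff]
        rw [show ‖chr (ρ₁ j) (A v.1)‖ = 1 from ha1 v j]
        exact one_ne_zero
      · rw [← norm_ne_zero_iff]
        rw [show ‖chr (ρ₂ j) (A v.1)‖ = 1 from hb1 v j]
        exact one_ne_zero
      · have h1 := h r
        unfold Pool.Agent.H506.SR.asq at h1
        rw [sq_eq_zero_iff, norm_eq_zero, hps, sub_eq_zero] at h1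
        exact h1
    · intro h r
      unfold Pool.Agent.H506.SR.asq
      rw [sq_eq_zero_iff, norm_eq_zero, hps, sub_eq_zero]
      have h1 := congrArg (fun M : Multiset ℂ => (M.map fun w => w ^ (r + 1)).sum) h
      simp only [eigenvalues, Multiset.map_map, Function.comp_def] at h1
      exact h1
  have hinj : Function.Injective fun v : V => (v.1 : ℕ) := fun v w h =>
    Subtype.ext (Subtype.ext h)
  rcases Pool.Agent.H506.SR.general hq2 hsum m hz1 hX0 hF hFP with hfin | ⟨c, hc, hx⟩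
  · left
    refine (hfin.image fun v : V => (v.1 : ℕ)).subset ?_
    rintro p ⟨hp, hpS, hne⟩
    exact ⟨⟨⟨p, hp⟩, hpS⟩, (hexc ⟨⟨p, hp⟩, hpS⟩).mpr hne, rfl⟩
  · right
    refine ⟨c, hc, hx.mono fun x hx' => hx'.trans ?_⟩
    have h1 : {v : V | (∃ r, Pool.Agent.H506.SR.asq m z v r ≠ 0) ∧ q v ≤ x}.ncard ≤
        {p : ℕ | p ∈ exceptions S A ρ₁ ρ₂ ∧ (p : ℝ) ≤ x}.ncard := by
      rw [← Set.ncard_image_of_injective _ hinj]
      refine Set.ncard_le_ncard ?_ ?_
      · rintro _ ⟨v, ⟨hv1, hv2⟩, rfl⟩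
        exact ⟨⟨v.1.2, v.2, (hexc v).mp hv1⟩, hv2⟩
      · refine (Set.finite_Iic ⌊x⌋₊).subset fun p hp => ?_
        exact Nat.le_floor hp.2
    exact_mod_cast h1

end Pool.Agent.Results.MP_eea520_nt.SparseRelations
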