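import Pool.Agent.H506.General

/-!
# Violations of the Ramanujan bound which are infinitely many but sparse contradict Q1

Let `π` be a unitary automorphic representation of `GSp_{2n}` over `ℚ`, unramified outside the finite
set `S`, with Satake classes `A_p` in the L-group `GSpin_{2n+1}(ℂ)`, and let `ρ` be a finite-dimensional
representation of the L-group, of degree `d`. We write `R_p ≥ 1` for the largest absolute value of an
eigenvalue of `ρ(A_p)`; if `π_p` is tempered, then `R_p = 1`.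

Question Q1 asks whether all `L_S(s, π, σ)` are meromorphic. The theorem says that one of the following
statements holds:

* there is an `i` with `1 ≤ i < d` such that, for every real `X`, the answer is negative for infinitely many
  of the representations `σ_k = (Λ^i ρ ⊗ (Λ^i ρ)^∨)^{⊗ k}`: the Euler product `L_S(s, π, σ_k)` has no
  meromorphic continuation to all real `s > X`, and in particular none to the plane;
* for every `δ > 0`, either `R_p < p^{δ'}` for every `δ' > δ` and all but finitely many `p`, or there is a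
  `c > 0` such that `R_p ≥ p^δ` for at least `x^c` primes `p ≤ x`, for all large `x`.

So, if Q1 has a positive answer for one `π`, and the primes with `R_p ≥ p^{δ'}` are infinitely many for some
`δ' > 0`, then for every smaller positive exponent there are many of them. And if there are
`0 < δ < δ'` such that `R_p ≥ p^{δ'}` for infinitely many `p`, but the number of the `p ≤ x` with `R_p ≥ p^δ` is,
for suitable arbitrarily large `x`, smaller than every power of `x`, then the answer to Q1 is negative.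

The dual torus is `(ℂˣ)^{n+1}`, with coordinates `b = (b_0; b_1, …, b_n)`; the Weyl group is generated by
the permutations of `b_1, …, b_n` and the changes `b_i → b_i⁻¹`, `b_0 → b_0 b_i`. A weight is a vector
`k ∈ ℤ^{n+1}`, with the character `b^k = ∏ b_i^{k_i}`; a representation is given by the family of its
weights, and `A_p` by a point of the torus. The spin representation has the weights with `k_0 = 1` and
`k_i ∈ {0, 1}` for `i ≥ 1`. If `π_p` is unitary, then the complex conjugate of `A_p` is conjugate to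
`A_p⁻¹` under the Weyl group. Automorphy is not used.

Proof. Let `p^{t_1(p)}, p^{t_2(p)}, …` be the absolute values of the eigenvalues of `ρ(A_p)` in decreasing
order, `T_i = t_1 + … + t_i`, `Θ_i = limsup T_i(p)`. Then `Θ_0 = Θ_d = 0`, and if `Θ_1 > δ` there is an `i`
with `Θ_i > i δ` and `2 Θ_i > Θ_{i-1} + Θ_{i+1}`. At the primes `p` with `T_i(p)` near `Θ_i` the matrix
`Λ^i ρ(A_p)` has one dominating eigenvalue and `t_1(p) > δ`. The Dirichlet series
`X_k(s) = log L_S(s, π, (Λ^i ρ ⊗ (Λ^i ρ)^∨)^{⊗ k})` has coefficients `≥ 0`, and for large `k` the other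
primes do not matter near `s_k = 2 k Θ_i`. If, for one large `k`, the abscissa of convergence of `X_k`
(after removing finitely many primes) is larger than `s_k`, then, by Landau's lemma, `L_S` has a pole of
order `M ≥ 1` there, `X_k` behaves like `M log (1/ε)` at the distance `ε` of it, and a Tauberian argument
gives mass in all windows `[α X, β X]` on the scale of `log p`, so at least `x^c` primes. If the abscissa
is `s_k` for all large `k`, then only finitely many `p` have `T_i(p) > Θ_i`, since the poles of their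
Euler factors at `2 k T_i(p)` would accumulate at `s_k`. With `u_p = p^{2 (T_i(p) - Θ_i)}` the sum
`f_k(ε) = ∑_p - log (1 - u_p^k p^{-ε})` is equal to `M_k log (1/ε) + O(1)` with natural numbers `M_k`
that decrease with `k`. So `M_k = M_{2k}` for a `k`, and
`∑ log (1 + u_p^k p^{-ε}) = f_k(ε) - f_{2k}(2 ε) = O(1)`, hence `∑ u_p^k < ∞`. After removing the finitely
many `p` with `u_p = 1` the sum `X_k` is bounded near `s_k`, so it is analytic at `s_k`, and by Landau's
lemma it converges to the left of `s_k`; but the series of the Euler factors at the `p` with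
`2 k T_i(p)` near `s_k` do not converge there.
-/

set_option autoImplicit false

namespace Pool.Agent.Results.MP_eea520_nt.SparseViolations

open Filter Topology

/-- The value `b^k = ∏ b_i^{k_i}` of the character `k` of the dual torus of `GSp_{2n}` at `b`. -/
noncomputable def chr {n : ℕ} (k : Fin (n + 1) → ℤ) (b : Fin (n + 1) → ℂ) : ℂ := ∏ i, b i ^ k i

/-- The action of the element of the Weyl group given by a set `I` of changes of signs and a permutation `σ`:
the new `b_0` is `b_0 ∏_{i ∈ I} b_i`, and the new `b_i` is `b_{σ i}`, or its inverse if `σ i ∈ I`. -/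
noncomputable def weyl {n : ℕ} (σ : Equiv.Perm (Fin n)) (I : Finset (Fin n)) (b : Fin (n + 1) → ℂ) :
    Fin (n + 1) → ℂ :=
  Fin.cons (b 0 * ∏ i ∈ I, b i.succ) fun i => if σ i ∈ I then (b (σ i).succ)⁻¹ else b (σ i).succ

/-- The family `ρ` of weights is stable under the Weyl group, in the weak sense that at conjugate points
of the dual torus the characters have the same values, up to a permutation. This is the case for the
weights of every finite-dimensional representation of `GSpin_{2n+1}(ℂ)`. -/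
def IsWeightSystem {n d : ℕ} (ρ : Fin d → Fin (n + 1) → ℤ) : Prop :=
  ∀ b : Fin (n + 1) → ℂ, (∀ i, b i ≠ 0) → ∀ (σ : Equiv.Perm (Fin n)) (I : Finset (Fin n)),
    ∃ e : Equiv.Perm (Fin d), ∀ j, chr (ρ (e j)) (weyl σ I b) = chr (ρ j) b

/-- `b` is in the dual torus, and its complex conjugate is conjugate to `b⁻¹` under the Weyl group. This is
the case for the Satake parameters of every unramified unitary representation of `GSp_{2n}(ℚ_p)`. -/
def IsUnitary {n : ℕ} (b : Fin (n + 1) → ℂ) : Prop :=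
  (∀ i, b i ≠ 0) ∧ ∃ (σ : Equiv.Perm (Fin n)) (I : Finset (Fin n)),
    (fun i => (starRingEnd ℂ) (b i)) = weyl σ I fun i => (b i)⁻¹

/-- The weights of the exterior power `Λ^i ρ`: the sums of the weights in the subsets with `i` elements. -/
def ext {n d : ℕ} (i : ℕ) (ρ : Fin d → Fin (n + 1) → ℤ) :
    {I : Finset (Fin d) // I.card = i} → Fin (n + 1) → ℤ :=
  fun I => ∑ j ∈ I.1, ρ j

/-- The weights of the dual representation. -/
def dual {n : ℕ} {ι : Type} (ρ : ι → Fin (n + 1) → ℤ) : ι → Fin (n + 1) → ℤ := fun j => -ρ j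

/-- The weights of the tensor product. -/
def tensor {n : ℕ} {ι ι' : Type} (ρ : ι → Fin (n + 1) → ℤ) (ρ' : ι' → Fin (n + 1) → ℤ) :
    ι × ι' → Fin (n + 1) → ℤ := fun x => ρ x.1 + ρ' x.2

/-- The weights of the `k`-th tensor power. -/
def power {n : ℕ} {ι : Type} (k : ℕ) (ρ : ι → Fin (n + 1) → ℤ) : (Fin k → ι) → Fin (n + 1) → ℤ :=
  fun f => ∑ l, ρ (f l)

/-- The Euler product `L_S(s, π, ρ) = ∏_{p ∉ S} det (1 - ρ(A_p) p^{-s})⁻¹`. -/
noncomputable def LFunction {n : ℕ} {ι : Type} [Fintype ι] (S : Finset ℕ) (A : ℕ → Fin (n + 1) → ℂ)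
    (ρ : ι → Fin (n + 1) → ℤ) (s : ℂ) : ℂ :=
  ∏' p : {p : Nat.Primes // (p : ℕ) ∉ S}, (∏ j, (1 - chr (ρ j) (A p.1) * ((p.1 : ℕ) : ℂ) ^ (-s)))⁻¹

/-- The function `L` has a meromorphic continuation along the real half-line `s > X`: there is a function
which is meromorphic at all real `s > X` and is equal to `L` in a half-plane `Re s > s₀`. -/
def ContinuesAlong (X : ℝ) (L : ℂ → ℂ) : Prop :=
  ∃ F : ℂ → ℂ, (∀ x : ℝ, X < x → MeromorphicAt F (x : ℂ)) ∧
    ∃ s₀ : ℝ, ∀ s : ℂ, s₀ < s.re → F s = L s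

/-- The primes `p ∉ S` such that `ρ(A_p)` has an eigenvalue of absolute value at least `p^δ`. -/
def violations {n d : ℕ} (S : Finset ℕ) (A : ℕ → Fin (n + 1) → ℂ) (ρ : Fin d → Fin (n + 1) → ℤ)
    (δ : ℝ) : Set ℕ :=
  {p | p.Prime ∧ p ∉ S ∧ ∃ j, (p : ℝ) ^ δ ≤ ‖chr (ρ j) (A p)‖}

section tools

variable {n d : ℕ}

theorem chr_conj (k : Fin (n + 1) → ℤ) (b : Fin (n + 1) → ℂ) :
    (starRingEnd ℂ) (chr k b) = chr k fun i => (starRingEnd ℂ) (b i) := by
  unfold chr
  rw [map_prod]
  exact Finset.prod_congr rfl fun i _ => map_zpow₀ _ _ _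

theorem chr_inv (k : Fin (n + 1) → ℤ) (b : Fin (n + 1) → ℂ) :
    chr k (fun i => (b i)⁻¹) = (chr k b)⁻¹ := by
  unfold chr
  rw [← Finset.prod_inv_distrib]
  exact Finset.prod_congr rfl fun i _ => inv_zpow _ _

theorem chr_ne_zero (k : Fin (n + 1) → ℤ) {b : Fin (n + 1) → ℂ} (hb : ∀ i, b i ≠ 0) :
    chr k b ≠ 0 := Finset.prod_ne_zero_iff.mpr fun i _ => zpow_ne_zero _ (hb i)

theorem chr_add (k k' : Fin (n + 1) → ℤ) {b : Fin (n + 1) → ℂ} (hb : ∀ i, b i ≠ 0) :
    chr (k + k') b = chr k b * chr k' b := by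
  unfold chr
  rw [← Finset.prod_mul_distrib]
  exact Finset.prod_congr rfl fun i _ => zpow_add₀ (hb i) _ _

theorem chr_neg (k : Fin (n + 1) → ℤ) (b : Fin (n + 1) → ℂ) : chr (-k) b = (chr k b)⁻¹ := by
  unfold chr
  rw [← Finset.prod_inv_distrib]
  exact Finset.prod_congr rfl fun i _ => zpow_neg _ _

theorem chr_zero (b : Fin (n + 1) → ℂ) : chr 0 b = 1 := by
  unfold chr
  exact Finset.prod_eq_one fun i _ => zpow_zero _

theorem chr_sum {ι : Type} (I : Finset ι) (k : ι → Fin (n + 1) → ℤ) {b : Fin (n + 1) → ℂ}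
    (hb : ∀ i, b i ≠ 0) : chr (∑ j ∈ I, k j) b = ∏ j ∈ I, chr (k j) b := by
  classical
  induction I using Finset.induction_on with
  | empty => rw [Finset.sum_empty, Finset.prod_empty, chr_zero]
  | insert a I ha ih => rw [Finset.sum_insert ha, Finset.prod_insert ha, chr_add _ _ hb, ih]

theorem conj_inv {ρ : Fin d → Fin (n + 1) → ℤ} (hρ : IsWeightSystem ρ) {b : Fin (n + 1) → ℂ}
    (hb : IsUnitary b) : ∃ e : Equiv.Perm (Fin d), ∀ j,
      (starRingEnd ℂ) (chr (ρ (e j)) b) = (chr (ρ j) b)⁻¹ := by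
  obtain ⟨h0, σ, I, h⟩ := hb
  obtain ⟨e, he⟩ := hρ (fun i => (b i)⁻¹) (fun i => inv_ne_zero (h0 i)) σ I
  refine ⟨e, fun j => ?_⟩
  rw [chr_conj, h, he, chr_inv]

end tools

/-- **Sparse violations.** -/
theorem result {n d : ℕ} (ρ : Fin d → Fin (n + 1) → ℤ) (hρ : IsWeightSystem ρ) (S : Finset ℕ)
    (A : ℕ → Fin (n + 1) → ℂ) (hA : ∀ p : ℕ, p.Prime → p ∉ S → IsUnitary (A p))
    (κ : ℝ) (hκ : ∀ p : ℕ, p.Prime → p ∉ S → ∀ j, ‖chr (ρ j) (A p)‖ ≤ (p : ℝ) ^ κ) :
    (∃ i : ℕ, 1 ≤ i ∧ i < d ∧ ∀ X : ℝ, {k : ℕ | ¬ ContinuesAlong X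
      (LFunction S A (power k (tensor (ext i ρ) (dual (ext i ρ)))))}.Infinite) ∨
    ∀ δ : ℝ, 0 < δ → (∀ δ' : ℝ, δ < δ' → (violations S A ρ δ').Finite) ∨
      ∃ c : ℝ, 0 < c ∧ ∀ᶠ x : ℝ in atTop,
        x ^ c ≤ ({p : ℕ | p ∈ violations S A ρ δ ∧ (p : ℝ) ≤ x}.ncard : ℝ) := by
  classical
  by_cases hL : ∃ i : ℕ, 1 ≤ i ∧ i < d ∧ ∀ X : ℝ, {k : ℕ | ¬ ContinuesAlong X
      (LFunction S A (power k (tensor (ext i ρ) (dual (ext i ρ)))))}.Infinite
  · exact Or.inl hL
  right
  intro δ hδ
  by_cases hfin : ∀ δ' : ℝ, δ < δ' → (violations S A ρ δ').Finite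
  · exact Or.inl hfin
  right
  push Not at hfin
  obtain ⟨δ', hδ', hinf⟩ := hfin
  set V : Type := {p : Nat.Primes // (p : ℕ) ∉ S} with hV
  set q : V → ℝ := fun v => ((v.1 : ℕ) : ℝ) with hq
  have hq2 : ∀ v, 2 ≤ q v := fun v => by
    have h2 : ((2 : ℕ) : ℝ) ≤ ((v.1 : ℕ) : ℝ) := Nat.cast_le.mpr v.1.2.two_le
    rw [Nat.cast_ofNat] at h2
    exact h2
  have hsum : ∀ s : ℝ, 1 < s → Summable fun v => q v ^ (-s) := by
    intro s hs
    have h1 : Summable fun p : Nat.Primes => ((p : ℕ) : ℝ) ^ (-s) :=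
      Nat.Primes.summable_rpow.mpr (by linarith)
    exact h1.comp_injective Subtype.val_injective
  set α : V → Fin d → ℂ := fun v j => chr (ρ j) (A v.1) with hα
  have hb : ∀ v : V, ∀ i, A v.1 i ≠ 0 := fun v => (hA v.1 v.1.2 v.2).1
  have h0 : ∀ v j, α v j ≠ 0 := fun v j => chr_ne_zero _ (hb v)
  have hu : ∀ v, ∃ e : Equiv.Perm (Fin d), ∀ j, (starRingEnd ℂ) (α v (e j)) = (α v j)⁻¹ :=
    fun v => conj_inv hρ (hA v.1 v.1.2 v.2)
  have hgam : ∀ (i k : ℕ) (v : V) f, chr (power k (tensor (ext i ρ) (dual (ext i ρ))) f) (A v.1) =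
      Pool.Agent.H506.SV.gam α i k v f := by
    intro i k v f
    unfold power Pool.Agent.H506.SV.gam
    rw [chr_sum _ _ (hb v)]
    refine Finset.prod_congr rfl fun l _ => ?_
    unfold tensor dual ext Pool.Agent.H506.SV.beta
    rw [chr_add _ _ (hb v), chr_neg, chr_sum _ _ (hb v), chr_sum _ _ (hb v)]
  have hinj : Function.Injective fun v : V => (v.1 : ℕ) := fun v w h =>
    Subtype.ext (Subtype.ext h)
  have hinf' : {v : V | ∃ j, q v ^ δ' ≤ ‖α v j‖}.Infinite := by
    intro hcon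
    apply hinf
    refine (hcon.image fun v : V => (v.1 : ℕ)).subset ?_
    rintro p ⟨hp, hpS, j, hj⟩
    exact ⟨⟨⟨p, hp⟩, hpS⟩, ⟨j, hj⟩, rfl⟩
  obtain ⟨c, hc, hx⟩ := Pool.Agent.H506.SV.general hq2 hsum h0 hu
    (fun v j => hκ v.1 v.1.2 v.2 j) (fun i hi hi' => by
      have h1 : ∃ X : ℝ, {k : ℕ | ¬ ContinuesAlong X
          (LFunction S A (power k (tensor (ext i ρ) (dual (ext i ρ)))))}.Finite := by
        by_contra hcon
        push Not at hcon
        exact hL ⟨i, hi, hi', hcon⟩
      obtain ⟨X, hX⟩ := h1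
      obtain ⟨K, hK⟩ := hX.bddAbove
      refine ⟨K + 1, X, fun k hk => ?_⟩
      have h2 : ContinuesAlong X (LFunction S A (power k (tensor (ext i ρ) (dual (ext i ρ))))) := by
        by_contra hcon
        have := hK (show k ∈ _ from hcon)
        omega
      obtain ⟨F, hF, s₀, hs₀⟩ := h2
      refine ⟨F, hF, s₀, fun s hs => ?_⟩
      rw [hs₀ s hs]
      unfold LFunction
      refine tprod_congr fun v => ?_
      simp only [hgam]
      rfl) hδ hδ' hinf'
  refine ⟨c, hc, hx.mono fun x hx' => hx'.trans ?_⟩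
  have h1 : {v : V | (∃ j, q v ^ δ ≤ ‖α v j‖) ∧ q v ≤ x}.ncard ≤
      {p : ℕ | p ∈ violations S A ρ δ ∧ (p : ℝ) ≤ x}.ncard := by
    rw [← Set.ncard_image_of_injective _ hinj]
    refine Set.ncard_le_ncard ?_ ?_
    · rintro _ ⟨v, ⟨hv1, hv2⟩, rfl⟩
      exact ⟨⟨v.1.2, v.2, hv1⟩, hv2⟩
    · refine (Set.finite_Iic ⌊x⌋₊).subset fun p hp => ?_
      exact Nat.le_floor hp.2
  exact_mod_cast h1

end Pool.Agent.Results.MP_eea520_nt.SparseViolations
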